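import Pool.Agent.H21.LLV.Main

set_option autoImplicit false

namespace Pool.Agent.Results.MP_b0d44b_ag.ParityColumns

open Pool.Agent.H21.LLV

/-- For every Looijenga-Lunts-Verbitsky module with `dim W = b_2 + 2 ≥ 6` the column sums over the
Hodge numbers of even degree increase up to the middle column, the column sums over the Hodge
numbers of odd degree increase too, and `a_i` is their difference; without odd cohomology the
numbers `a_0 ≤ ... ≤ a_n` increase. -/
theorem result (n : ℕ) (W H : Type) [AddCommGroup W] [Module ℂ W] [AddCommGroup H]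
    [Module ℂ H] [FiniteDimensional ℂ H] (D : LLVData W H) (hg : D.IsGraded n)
    (h6 : 6 ≤ Module.finrank ℂ W) :
    (∀ i, D.a n i = D.evenCol n i - D.oddCol n i) ∧
    (∀ i < n, D.evenCol n i ≤ D.evenCol n (i + 1) ∧ D.oddCol n i ≤ D.oddCol n (i + 1)) ∧
    ((∀ p r : ℕ, Odd (p + r) → D.hNum n p r = 0) → ∀ i < n, D.a n i ≤ D.a n (i + 1)) := by
  refine ⟨D.a_eq n, fun i hi => ⟨D.evenCol_le h6 hg i hi, D.oddCol_le h6 hg i hi⟩, ?_⟩
  intro hodd i hi
  have h0 : ∀ j, D.oddCol n j = 0 := by
    intro j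
    exact Finset.sum_eq_zero (fun r hr => hodd j r (Finset.mem_filter.1 hr).2)
  rw [D.a_eq, D.a_eq, h0, h0, sub_zero, sub_zero]
  exact D.evenCol_le h6 hg i hi

end Pool.Agent.Results.MP_b0d44b_ag.ParityColumns
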